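import Pool.Agent.W827.BW.Stm

set_option autoImplicit false

open Set

namespace Pool.Agent.W932.BW

open Pool.Agent.W827.BW

theorem t_TOP1 : S_TOP1 := by
  intro A B C hind Γ h1 h2 h3 hΓ z hz
  have hspan : affineSpan ℝ (range ![A, B, C]) = ⊤ := by
    rw [hind.affineSpan_eq_top_iff_card_eq_finrank_add_one]
    simp [Complex.finrank_real_complex]
  let b : AffineBasis (Fin 3) ℝ ℂ := ⟨![A, B, C], hind, hspan⟩
  have hb0 : b 0 = A := rfl
  have hb1 : b 1 = B := rfl
  have hb2 : b 2 = C := rfl
  have hr : range b = {A, B, C} := by
    ext x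
    simp only [mem_range, mem_insert_iff, mem_singleton_iff]
    constructor
    · rintro ⟨i, rfl⟩
      fin_cases i
      · left; rfl
      · right; left; rfl
      · right; right; rfl
    · rintro (rfl | rfl | rfl)
      · exact ⟨0, rfl⟩
      · exact ⟨1, rfl⟩
      · exact ⟨2, rfl⟩
  have hT : convexHull ℝ {A, B, C} = {x | ∀ i, 0 ≤ b.coord i x} := by
    rw [← hr]; exact b.convexHull_eq_nonneg_coord
  have hI : interior (convexHull ℝ {A, B, C}) = {x | ∀ i, 0 < b.coord i x} := by
    rw [← hr]; exact b.interior_convexHull
  have hcomb : ∀ x : ℂ, b.coord 0 x • A + b.coord 1 x • B + b.coord 2 x • C = x := by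
    intro x
    have := b.linear_combination_coord_eq_self x
    rw [Fin.sum_univ_three] at this
    exact this
  have hsum : ∀ x : ℂ, b.coord 0 x + b.coord 1 x + b.coord 2 x = 1 := by
    intro x
    have := b.sum_coord_apply_eq_one x
    rw [Fin.sum_univ_three] at this
    exact this
  have hclosed : IsClosed (convexHull ℝ {A, B, C}) :=
    (Set.Finite.isCompact_convexHull ℝ (by simp : ({A, B, C} : Set ℂ).Finite)).isClosed
  have hne : (interior (convexHull ℝ {A, B, C})).Nonempty := ⟨z, hz⟩
  have hfr : frontier (interior (convexHull ℝ {A, B, C})) =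
      segment ℝ A B ∪ segment ℝ B C ∪ segment ℝ C A := by
    have e1 : frontier (interior (convexHull ℝ {A, B, C})) =
        convexHull ℝ {A, B, C} \ interior (convexHull ℝ {A, B, C}) := by
      rw [frontier, (convex_convexHull ℝ _).closure_interior_eq_closure_of_nonempty_interior hne,
        hclosed.closure_eq, interior_interior]
    rw [e1, hT, ← hT, hI, hT]
    have cl : ∀ (i : Fin 3) (P Q : ℂ), b.coord i P = 0 → b.coord i Q = 0 →
        (∀ j, 0 ≤ b.coord j P) → (∀ j, 0 ≤ b.coord j Q) → segment ℝ P Q ⊆
        {x | ∀ i, 0 ≤ b.coord i x} \ {x | ∀ i, 0 < b.coord i x} := by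
      intro i P Q hP hQ hP' hQ' x hx
      rw [segment_eq_image_lineMap] at hx
      obtain ⟨s, hs, rfl⟩ := hx
      have key : ∀ j, b.coord j (AffineMap.lineMap P Q s) =
          (1 - s) * b.coord j P + s * b.coord j Q := by
        intro j
        rw [AffineMap.apply_lineMap, AffineMap.lineMap_apply_ring]
      refine ⟨?_, ?_⟩
      · intro j
        rw [key]
        have := hs.1; have := hs.2
        have := hP' j; have := hQ' j
        have : 0 ≤ 1 - s := by linarith
        positivity
      · intro hcon
        have := hcon i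
        rw [key, hP, hQ] at this
        simp at this
    have cA : ∀ j, 0 ≤ b.coord j A := by
      intro j
      rw [← hb0, b.coord_apply]; split_ifs <;> norm_num
    have cB : ∀ j, 0 ≤ b.coord j B := by
      intro j
      rw [← hb1, b.coord_apply]; split_ifs <;> norm_num
    have cC : ∀ j, 0 ≤ b.coord j C := by
      intro j
      rw [← hb2, b.coord_apply]; split_ifs <;> norm_num
    apply Subset.antisymm
    · rintro x ⟨hx1, hx2⟩
      simp only [mem_ofPred_eq, not_forall, not_lt] at hx1 hx2
      obtain ⟨i, hi⟩ := hx2
      have h0 : b.coord i x = 0 := le_antisymm hi (hx1 i)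
      have e := hcomb x
      have s := hsum x
      fin_cases i
      · left; right
        simp only [Fin.zero_eta, Fin.isValue] at h0
        rw [h0, zero_smul, zero_add] at e
        rw [h0, zero_add] at s
        exact ⟨_, _, hx1 1, hx1 2, s, e⟩
      · right
        simp only [Fin.mk_one, Fin.isValue] at h0
        rw [h0, zero_smul, add_zero] at e
        rw [h0, add_zero] at s
        exact ⟨_, _, hx1 2, hx1 0, by rw [add_comm]; exact s, by rw [add_comm]; exact e⟩
      · left; left
        simp only [Fin.reduceFinMk, Fin.isValue] at h0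
        rw [h0, zero_smul, add_zero] at e
        rw [h0, add_zero] at s
        exact ⟨_, _, hx1 0, hx1 1, s, e⟩
    · apply union_subset
      · apply union_subset
        · exact cl 2 A B (by rw [← hb0]; simp [b.coord_apply]) (by rw [← hb1]; simp [b.coord_apply]) cA cB
        · exact cl 0 B C (by rw [← hb1]; simp [b.coord_apply]) (by rw [← hb2]; simp [b.coord_apply]) cB cC
      · exact cl 1 C A (by rw [← hb2]; simp [b.coord_apply]) (by rw [← hb0]; simp [b.coord_apply]) cC cA
  have hcomp : connectedComponentIn Γᶜ z = interior (convexHull ℝ {A, B, C}) := by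
    have hOsub : interior (convexHull ℝ {A, B, C}) ⊆ Γᶜ := by
      intro x hx hx'
      have : x ∈ interior (convexHull ℝ {A, B, C}) ∩ Γ := ⟨hx, hx'⟩
      rw [hΓ] at this
      exact this
    apply Subset.antisymm
    · by_contra hcon
      obtain ⟨x, hx1, hx2⟩ := not_subset.mp hcon
      have hpre : IsPreconnected (connectedComponentIn Γᶜ z) := isPreconnected_connectedComponentIn
      have hno : ∀ y ∈ connectedComponentIn Γᶜ z,
          y ∉ frontier (interior (convexHull ℝ {A, B, C})) := by
        intro y hy1 hy2
        have hyΓ : y ∈ Γᶜ := connectedComponentIn_subset _ _ hy1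
        rw [hfr] at hy2
        rcases hy2 with (hy | hy) | hy
        · exact hyΓ (h1 hy)
        · exact hyΓ (h2 hy)
        · exact hyΓ (h3 hy)
      have hdich : ∀ y ∈ connectedComponentIn Γᶜ z,
          y ∉ interior (convexHull ℝ {A, B, C}) →
          y ∈ (closure (interior (convexHull ℝ {A, B, C})))ᶜ := by
        intro y hy hy' hy''
        exact hno y hy ⟨hy'', fun h => hy' (interior_subset h)⟩
      obtain ⟨y, hy, hy1, hy2⟩ := hpre (interior (convexHull ℝ {A, B, C}))
        (closure (interior (convexHull ℝ {A, B, C})))ᶜ isOpen_interior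
        isClosed_closure.isOpen_compl
        (fun y hy => by
          by_cases hy' : y ∈ interior (convexHull ℝ {A, B, C})
          · exact Or.inl hy'
          · exact Or.inr (hdich y hy hy'))
        ⟨z, mem_connectedComponentIn (hOsub hz), hz⟩ ⟨x, hx1, hdich x hx1 hx2⟩
      exact hy2 (subset_closure hy1)
    · exact ((convex_convexHull ℝ _).interior.isPreconnected).subset_connectedComponentIn hz hOsub
  rw [hcomp, hfr]

end Pool.Agent.W932.BW
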