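import Pool.Agent.W827.BW.Stm

set_option autoImplicit false

open Set

namespace Pool.Agent.W932.BW

open Pool.Agent.W827.BW

theorem place_re (a : ℤ × ℤ) : (place a).re = a.2 := by simp [place]

theorem place_im (a : ℤ × ℤ) : (place a).im = a.1 := by simp [place]

theorem seg_coord {u v : ℤ × ℤ} {z : ℂ} (h : z ∈ segment ℝ (place u) (place v)) :
    ∃ s : ℝ, 0 ≤ s ∧ s ≤ 1 ∧ z.re = (1 - s) * u.2 + s * v.2 ∧ z.im = (1 - s) * u.1 + s * v.1 := by
  obtain ⟨a, b, ha, hb, hab, rfl⟩ := h
  refine ⟨b, hb, by linarith, ?_, ?_⟩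
  · have : a = 1 - b := by linarith
    subst this
    simp [place_re, place_im]
  · have : a = 1 - b := by linarith
    subst this
    simp [place_re, place_im]

theorem eq_place {z : ℂ} {w : ℤ × ℤ} (h1 : z.re = w.2) (h2 : z.im = w.1) : z = place w := by
  apply Complex.ext
  · rw [place_re, h1]
  · rw [place_im, h2]

theorem end1 {α : ℤ → ℤ → ℤ} {u v w : ℤ × ℤ} (h : RowRel α u v)
    (hw : place w ∈ segment ℝ (place u) (place v)) : w = u ∨ w = v := by
  obtain ⟨s, hs0, hs1, hre, him⟩ := seg_coord hw
  rw [place_re] at hre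
  rw [place_im] at him
  rcases h with ⟨h1, h2⟩ | ⟨h1, h2, h3⟩
  · have e1 : (w.1 : ℝ) = u.1 := by
      rw [him, h1]; ring
    have e2 : (w.2 : ℝ) = u.2 + s := by
      rw [hre, h2]; push_cast; ring
    have i1 : w.1 = u.1 := by exact_mod_cast e1
    have a1 : u.2 ≤ w.2 := by
      have : (u.2 : ℝ) ≤ w.2 := by rw [e2]; linarith
      exact_mod_cast this
    have a2 : w.2 ≤ u.2 + 1 := by
      have : (w.2 : ℝ) ≤ u.2 + 1 := by rw [e2]; linarith
      exact_mod_cast this
    rcases (by omega : w.2 = u.2 ∨ w.2 = u.2 + 1) with h | h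
    · left; exact Prod.ext i1 h
    · right; exact Prod.ext (by rw [i1, h1]) (by rw [h, h2])
  · have e1 : (w.1 : ℝ) = u.1 + s := by
      rw [him, h1]; push_cast; ring
    have a1 : u.1 ≤ w.1 := by
      have : (u.1 : ℝ) ≤ w.1 := by rw [e1]; linarith
      exact_mod_cast this
    have a2 : w.1 ≤ u.1 + 1 := by
      have : (w.1 : ℝ) ≤ u.1 + 1 := by rw [e1]; linarith
      exact_mod_cast this
    rcases (by omega : w.1 = u.1 ∨ w.1 = u.1 + 1) with h | h
    · left
      have hs : s = 0 := by rw [h] at e1; linarith
      rw [hs] at hre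
      refine Prod.ext h ?_
      have : (w.2 : ℝ) = u.2 := by rw [hre]; ring
      exact_mod_cast this
    · right
      have hs : s = 1 := by rw [h] at e1; push_cast at e1; linarith
      rw [hs] at hre
      refine Prod.ext (by rw [h, h1]) ?_
      have : (w.2 : ℝ) = v.2 := by rw [hre]; ring
      exact_mod_cast this

theorem key_hc {u v x y : ℤ × ℤ} {z : ℂ} (hu : v.1 = u.1)
    (hx : y.1 = x.1 + 1) (h1 : z ∈ segment ℝ (place u) (place v))
    (h2 : z ∈ segment ℝ (place x) (place y)) : ∃ w, z = place w := by
  obtain ⟨s, hs0, hs1, hre, him⟩ := seg_coord h1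
  obtain ⟨t, ht0, ht1, hre', him'⟩ := seg_coord h2
  have e1 : (u.1 : ℝ) = x.1 + t := by
    have a : z.im = u.1 := by rw [him, hu]; ring
    have b : z.im = x.1 + t := by rw [him', hx]; push_cast; ring
    rw [← a, b]
  have a1 : x.1 ≤ u.1 := by
    have : (x.1 : ℝ) ≤ u.1 := by rw [e1]; linarith
    exact_mod_cast this
  have a2 : u.1 ≤ x.1 + 1 := by
    have : (u.1 : ℝ) ≤ x.1 + 1 := by rw [e1]; linarith
    exact_mod_cast this
  rcases (by omega : u.1 = x.1 ∨ u.1 = x.1 + 1) with h | h
  · have ht : t = 0 := by rw [h] at e1; linarith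
    refine ⟨x, eq_place ?_ ?_⟩
    · rw [hre', ht]; ring
    · rw [him', ht]; ring
  · have ht : t = 1 := by rw [h] at e1; push_cast at e1; linarith
    refine ⟨y, eq_place ?_ ?_⟩
    · rw [hre', ht]; ring
    · rw [him', ht]; ring

theorem key {α : ℤ → ℤ → ℤ} (hα : Good α) {u v x y : ℤ × ℤ} {z : ℂ} (hu : RowRel α u v)
    (hx : RowRel α x y) (h1 : z ∈ segment ℝ (place u) (place v))
    (h2 : z ∈ segment ℝ (place x) (place y)) : (u = x ∧ v = y) ∨ ∃ w, z = place w := by
  rcases hu with ⟨p1, p2⟩ | ⟨p1, p2, p3⟩
  · rcases hx with ⟨q1, q2⟩ | ⟨q1, q2, q3⟩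
    · obtain ⟨s, hs0, hs1, hre, him⟩ := seg_coord h1
      obtain ⟨t, ht0, ht1, hre', him'⟩ := seg_coord h2
      have a : z.im = u.1 := by rw [him, p1]; ring
      have a' : z.im = x.1 := by rw [him', q1]; ring
      have b : z.re = u.2 + s := by rw [hre, p2]; push_cast; ring
      have b' : z.re = x.2 + t := by rw [hre', q2]; push_cast; ring
      have e1 : u.1 = x.1 := by
        have : (u.1 : ℝ) = x.1 := by rw [← a, a']
        exact_mod_cast this
      rcases lt_trichotomy u.2 x.2 with h | h | h
      · right
        have h' : u.2 + 1 ≤ x.2 := h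
        have h'' : (u.2 : ℝ) + 1 ≤ x.2 := by exact_mod_cast h'
        have : t = 0 := by linarith
        exact ⟨x, eq_place (by rw [b', this]; ring) a'⟩
      · left
        have hux : u = x := Prod.ext e1 h
        refine ⟨hux, Prod.ext ?_ ?_⟩
        · rw [p1, q1, e1]
        · rw [p2, q2, h]
      · right
        have h' : x.2 + 1 ≤ u.2 := h
        have h'' : (x.2 : ℝ) + 1 ≤ u.2 := by exact_mod_cast h'
        have : s = 0 := by linarith
        exact ⟨u, eq_place (by rw [b, this]; ring) a⟩
    · right; exact key_hc p1 q1 h1 h2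
  · rcases hx with ⟨q1, q2⟩ | ⟨q1, q2, q3⟩
    · right; exact key_hc q1 p1 h2 h1
    · obtain ⟨s, hs0, hs1, hre, him⟩ := seg_coord h1
      obtain ⟨t, ht0, ht1, hre', him'⟩ := seg_coord h2
      have a : z.im = u.1 + s := by rw [him, p1]; push_cast; ring
      have a' : z.im = x.1 + t := by rw [him', q1]; push_cast; ring
      rcases lt_trichotomy u.1 x.1 with h | h | h
      · right
        have h' : u.1 + 1 ≤ x.1 := h
        have h'' : (u.1 : ℝ) + 1 ≤ x.1 := by exact_mod_cast h'
        have ht : t = 0 := by linarith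
        exact ⟨x, eq_place (by rw [hre', ht]; ring) (by rw [him', ht]; ring)⟩
      · have hst : s = t := by
          rw [h] at a; linarith
        subst hst
        rcases eq_or_lt_of_le hs0 with hs | hs
        · right
          exact ⟨u, eq_place (by rw [hre, ← hs]; ring) (by rw [him, ← hs]; ring)⟩
        · rcases eq_or_lt_of_le hs1 with hs' | hs'
          · right
            exact ⟨v, eq_place (by rw [hre, hs']; ring) (by rw [him, hs']; ring)⟩
          · left
            have he : (1 - s) * u.2 + s * v.2 = (1 - s) * x.2 + s * y.2 := by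
              rw [← hre, hre']
            have hs'' : 0 < 1 - s := by linarith
            have hne1 : ¬ u.2 < x.2 := by
              intro hlt
              have m1 : v.2 ≤ y.2 := by
                calc v.2 ≤ α u.1 (u.2 + 1) := p3
                  _ ≤ α u.1 x.2 := hα.mono _ hlt
                  _ = α x.1 x.2 := by rw [h]
                  _ ≤ y.2 := q2
              have m1' : (v.2 : ℝ) ≤ y.2 := by exact_mod_cast m1
              have m2' : (u.2 : ℝ) < x.2 := by exact_mod_cast hlt
              have := mul_lt_mul_of_pos_left m2' hs''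
              have := mul_le_mul_of_nonneg_left m1' hs0
              linarith
            have hne2 : ¬ x.2 < u.2 := by
              intro hlt
              have m1 : y.2 ≤ v.2 := by
                calc y.2 ≤ α x.1 (x.2 + 1) := q3
                  _ ≤ α x.1 u.2 := hα.mono _ hlt
                  _ = α u.1 u.2 := by rw [h]
                  _ ≤ v.2 := p2
              have m1' : (y.2 : ℝ) ≤ v.2 := by exact_mod_cast m1
              have m2' : (x.2 : ℝ) < u.2 := by exact_mod_cast hlt
              have := mul_lt_mul_of_pos_left m2' hs''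
              have := mul_le_mul_of_nonneg_left m1' hs0
              linarith
            have hu2 : u.2 = x.2 := by omega
            have hv2 : v.2 = y.2 := by
              rw [hu2] at he
              have : s * (v.2 : ℝ) = s * y.2 := by linarith
              have : (v.2 : ℝ) = y.2 := mul_left_cancel₀ hs.ne' this
              exact_mod_cast this
            refine ⟨Prod.ext h hu2, Prod.ext ?_ hv2⟩
            rw [p1, q1, h]
      · right
        have h' : x.1 + 1 ≤ u.1 := h
        have h'' : (x.1 : ℝ) + 1 ≤ u.1 := by exact_mod_cast h'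
        have hs : s = 0 := by linarith
        exact ⟨u, eq_place (by rw [hre, hs]; ring) (by rw [him, hs]; ring)⟩

theorem t_TOP3 : S_TOP3 := by
  intro α hα
  constructor
  · intro u v w huv hw
    rw [RowGraph, SimpleGraph.fromRel_adj] at huv
    rcases huv.2 with h | h
    · exact end1 h hw
    · rw [segment_symm] at hw
      exact (end1 h hw).symm
  · intro u v x y huv hxy z h1 h2
    rw [RowGraph, SimpleGraph.fromRel_adj] at huv hxy
    rcases huv.2 with h | h
    · rcases hxy.2 with h' | h'
      · rcases key hα h h' h1 h2 with ⟨e1, e2⟩ | e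
        · left; exact ⟨e1, e2⟩
        · right; right; exact e
      · rw [segment_symm] at h2
        rcases key hα h h' h1 h2 with ⟨e1, e2⟩ | e
        · right; left; exact ⟨e1, e2⟩
        · right; right; exact e
    · rw [segment_symm] at h1
      rcases hxy.2 with h' | h'
      · rcases key hα h h' h1 h2 with ⟨e1, e2⟩ | e
        · right; left; exact ⟨e2, e1⟩
        · right; right; exact e
      · rw [segment_symm] at h2
        rcases key hα h h' h1 h2 with ⟨e1, e2⟩ | e
        · left; exact ⟨e2, e1⟩
        · right; right; exact e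

end Pool.Agent.W932.BW
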